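import Pool.Agent.J4H63.IS.Stm

set_option autoImplicit false

/-! # Project IS, piece (EQ2): from an independent set to an assignment (helper2) -/

namespace Pool.Agent.J4H2.IS

open Finset Pool.Agent.J4H64.SS Pool.Agent.J4H95.SP Pool.Agent.J4H63.IS

/-- the pair or the triangle of a vertex -/
def grp {n k : ℕ} : Vt n k → (Fin n × Fin (6 * k)) ⊕ ((Fin n × Bool) × Fin k)
  | Sum.inl (v, i, _) => Sum.inl (v, i)
  | Sum.inr (l, s, _) => Sum.inr (l, s)

/-- the complete graph or the triangle of a vertex -/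
def grp4 {n k : ℕ} : Vt n k → (Fin n × Fin (3 * k)) ⊕ ((Fin n × Bool) × Fin k)
  | Sum.inl (v, i, _) => Sum.inl (v, ⟨i.1 / 2, by have := i.2; omega⟩)
  | Sum.inr (l, s, _) => Sum.inr (l, s)

theorem no_empty {n k : ℕ} (hk : 1 ≤ k) (x : Cl n → Bool) (hn : 1 ≤ n) (hx : x ⟨∅, by simp⟩ = true)
    (S : Finset (Vt n k)) (hS : n * (8 * k) ≤ S.card) (hR : ∀ u ∈ S, ∀ v ∈ S, ¬ R k hk x u v) : False := by
  classical
  have h1 : S.card ≤ (Finset.univ : Finset ((Fin n × Fin (3 * k)) ⊕ ((Fin n × Bool) × Fin k))).card := by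
    apply Finset.card_le_card_of_injOn grp4 (fun u _ => Finset.mem_coe.2 (Finset.mem_univ _))
    intro u hu w hw huw
    have h := hR u hu w hw
    rcases u with ⟨v, i, b⟩ | ⟨l, s, p⟩ <;> rcases w with ⟨v', i', b'⟩ | ⟨l', s', p'⟩
    · simp only [grp4, Sum.inl.injEq, Prod.mk.injEq, Fin.mk.injEq] at huw
      by_contra hne
      apply h
      refine ⟨huw.1, Or.inl ⟨hx, huw.2, fun e => hne ?_⟩⟩
      rw [huw.1, (Prod.mk.injEq _ _ _ _ ▸ e : i = i' ∧ b = b').1, (Prod.mk.injEq _ _ _ _ ▸ e : i = i' ∧ b = b').2]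
    · simp [grp4] at huw
    · simp [grp4] at huw
    · simp only [grp4, Sum.inr.injEq, Prod.mk.injEq] at huw
      by_contra hne
      apply h
      refine ⟨huw.1, huw.2, fun e => hne ?_⟩
      rw [huw.1, huw.2, e]
  rw [Finset.card_univ] at h1
  simp only [Fintype.card_sum, Fintype.card_prod, Fintype.card_fin, Fintype.card_bool] at h1
  have h2 : 1 ≤ n * k := Nat.one_le_iff_ne_zero.2 (Nat.mul_ne_zero (by omega) (by omega))
  have h3 : n * (8 * k) = 8 * (n * k) := by ring
  have h4 : n * (3 * k) + n * 2 * k = 5 * (n * k) := by ring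
  omega

theorem surj {n k : ℕ} (hk : 1 ≤ k) (x : Cl n → Bool) (hx : x ⟨∅, by simp⟩ = false)
    (S : Finset (Vt n k)) (hS : n * (8 * k) ≤ S.card) (hR : ∀ u ∈ S, ∀ v ∈ S, ¬ R k hk x u v)
    (g : (Fin n × Fin (6 * k)) ⊕ ((Fin n × Bool) × Fin k)) : ∃ u ∈ S, grp u = g := by
  classical
  have hinj : Set.InjOn (grp (n := n) (k := k)) S := by
    intro u hu w hw huw
    have h := hR u hu w hw
    rcases u with ⟨v, i, b⟩ | ⟨l, s, p⟩ <;> rcases w with ⟨v', i', b'⟩ | ⟨l', s', p'⟩
    · simp only [grp, Sum.inl.injEq, Prod.mk.injEq] at huw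
      by_contra hne
      apply h
      refine ⟨huw.1, Or.inr ⟨hx, Or.inl ⟨huw.2, fun e => hne ?_⟩⟩⟩
      rw [huw.1, huw.2, e]
    · simp [grp] at huw
    · simp [grp] at huw
    · simp only [grp, Sum.inr.injEq, Prod.mk.injEq] at huw
      by_contra hne
      apply h
      refine ⟨huw.1, huw.2, fun e => hne ?_⟩
      rw [huw.1, huw.2, e]
  have h1 : (S.image grp).card = S.card := Finset.card_image_of_injOn hinj
  have h2 : (S.image (grp (n := n) (k := k))) = Finset.univ := by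
    apply Finset.eq_univ_of_card
    apply le_antisymm (Finset.card_le_univ _)
    rw [h1]
    simp only [Fintype.card_sum, Fintype.card_prod, Fintype.card_fin, Fintype.card_bool]
    have h4 : n * (6 * k) + n * 2 * k = n * (8 * k) := by ring
    omega
  have h3 : g ∈ S.image grp := by rw [h2]; exact Finset.mem_univ _
  obtain ⟨u, hu, hu2⟩ := Finset.mem_image.1 h3
  exact ⟨u, hu, hu2⟩

theorem around {k : ℕ} (P : Fin (6 * k) → Prop) (h : ∀ i, P i → P (nx i)) (i j : Fin (6 * k)) (hi : P i) : P j := by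
  have h1 : ∀ m : ℕ, P ⟨(i.1 + m) % (6 * k), Nat.mod_lt _ (by have := i.2; omega)⟩ := by
    intro m
    induction m with
    | zero =>
      have e : (⟨(i.1 + 0) % (6 * k), Nat.mod_lt _ (by have := i.2; omega)⟩ : Fin (6 * k)) = i :=
        Fin.ext (Nat.mod_eq_of_lt i.2)
      rw [e]
      exact hi
    | succ m ih =>
      have h2 := h _ ih
      have e : nx (⟨(i.1 + m) % (6 * k), Nat.mod_lt _ (by have := i.2; omega)⟩ : Fin (6 * k)) =
          ⟨(i.1 + (m + 1)) % (6 * k), Nat.mod_lt _ (by have := i.2; omega)⟩ := by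
        apply Fin.ext
        simp only [nx]
        rw [Nat.mod_add_mod]
        rfl
      rw [e] at h2
      exact h2
  have h2 := h1 (j.1 + 6 * k - i.1)
  have e : (⟨(i.1 + (j.1 + 6 * k - i.1)) % (6 * k), Nat.mod_lt _ (by have := i.2; omega)⟩ : Fin (6 * k)) = j := by
    apply Fin.ext
    have e1 : i.1 + (j.1 + 6 * k - i.1) = j.1 + 6 * k := by have := i.2; omega
    simp only [e1]
    rw [Nat.add_mod_right]
    exact Nat.mod_eq_of_lt j.2
  rw [e] at h2
  exact h2

theorem rk_lt {n k : ℕ} (x : Cl n → Bool) (hx : Sparse k x) (l : Fin n × Bool) (c : Cl n) (hc : x c = true)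
    (hl : l ∈ c.1) : rk x l c < k := by
  classical
  unfold rk
  refine lt_of_lt_of_le (Finset.card_lt_card ?_) (hx l)
  rw [Finset.ssubset_iff_of_subset]
  · refine ⟨c, ?_, ?_⟩
    · simp [hc, hl]
    · simp
  · intro c' hc'
    simp only [Finset.mem_filter, Finset.mem_univ, true_and] at hc' ⊢
    exact ⟨hc'.1, hc'.2.1⟩

theorem t_EQ2 : S_EQ2 := by
  classical
  rintro n k hk x hn hsp ⟨S, hS, hR⟩
  cases hx : x ⟨∅, by simp⟩ with
  | true => exact (no_empty hk x hn hx S hS hR).elim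
  | false =>
    have hsurj := surj hk x hx S hS hR
    have hk6 : 0 < 6 * k := by omega
    have hone : ∀ (v : Fin n) (i : Fin (6 * k)), (Sum.inl (v, i, false) : Vt n k) ∈ S ∨ (Sum.inl (v, i, true) : Vt n k) ∈ S := by
      intro v i
      obtain ⟨u, hu, hu2⟩ := hsurj (Sum.inl (v, i))
      rcases u with ⟨v', i', b'⟩ | ⟨l', s', p'⟩
      · simp only [grp, Sum.inl.injEq, Prod.mk.injEq] at hu2
        obtain ⟨rfl, rfl⟩ := hu2
        cases b' with
        | false => exact Or.inl hu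
        | true => exact Or.inr hu
      · simp [grp] at hu2
    have hnot : ∀ (v : Fin n) (i : Fin (6 * k)), ¬ ((Sum.inl (v, i, false) : Vt n k) ∈ S ∧ (Sum.inl (v, i, true) : Vt n k) ∈ S) := by
      rintro v i ⟨h1, h2⟩
      exact hR _ h1 _ h2 ⟨rfl, Or.inr ⟨hx, Or.inl ⟨rfl, by simp⟩⟩⟩
    have hnext : ∀ (v : Fin n) (i : Fin (6 * k)), (Sum.inl (v, i, false) : Vt n k) ∈ S → (Sum.inl (v, nx i, false) : Vt n k) ∈ S := by
      intro v i h
      rcases hone v (nx i) with h1 | h1
      · exact h1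
      · exact (hR _ h _ h1 ⟨rfl, Or.inr ⟨hx, Or.inr (Or.inl ⟨rfl, rfl, rfl⟩)⟩⟩).elim
    have hall : ∀ (v : Fin n) (i j : Fin (6 * k)), (Sum.inl (v, i, false) : Vt n k) ∈ S → (Sum.inl (v, j, false) : Vt n k) ∈ S :=
      fun v i j hi => around (fun i => (Sum.inl (v, i, false) : Vt n k) ∈ S) (fun i hi => hnext v i hi) i j hi
    set a : Fin n → Bool := fun v => decide ((Sum.inl (v, ⟨0, hk6⟩, true) : Vt n k) ∈ S) with ha
    have hav : ∀ (v : Fin n) (i : Fin (6 * k)) (b : Bool), (Sum.inl (v, i, b) : Vt n k) ∈ S → a v = b := by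
      intro v i b hb
      cases b with
      | false =>
        have h1 := hall v i ⟨0, hk6⟩ hb
        simp only [ha, decide_eq_false_iff_not]
        exact fun h2 => hnot v _ ⟨h1, h2⟩
      | true =>
        simp only [ha, decide_eq_true_eq]
        rcases hone v ⟨0, hk6⟩ with h1 | h1
        · exact (hnot v i ⟨hall v _ i h1, hb⟩).elim
        · exact h1
    refine ⟨a, fun c hc => ?_⟩
    have hne : c.1.Nonempty := by
      rw [Finset.nonempty_iff_ne_empty]
      intro he
      have : c = ⟨∅, by simp⟩ := Subtype.ext he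
      rw [this, hx] at hc
      exact Bool.false_ne_true hc
    have hl0 : el c hne 0 ∈ c.1 := (el_spec c hne _).2 ⟨0, rfl⟩
    have hrk := rk_lt x hsp (el c hne 0) c hc hl0
    obtain ⟨u, hu, hu2⟩ := hsurj (Sum.inr (el c hne 0, ⟨rk x (el c hne 0) c, hrk⟩))
    rcases u with ⟨v', i', b'⟩ | ⟨l', s', p⟩
    · simp [grp] at hu2
    simp only [grp, Sum.inr.injEq, Prod.mk.injEq] at hu2
    obtain ⟨e1, e2⟩ := hu2
    subst e2
    subst e1
    refine ⟨el c hne p, (el_spec c hne _).2 ⟨p, rfl⟩, ?_⟩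
    set v := (el c hne p).1 with hv
    set b := (el c hne p).2 with hb
    have hel : el c hne p = (v, !(!b)) := by rw [Bool.not_not]
    have hJ : R k hk x (Sum.inl (v, ix k hk (rk x (v, !(!b)) c) p (!(!b)), !b))
        (Sum.inr (el c hne 0, ⟨rk x (el c hne 0) c, hrk⟩, p)) :=
      ⟨hx, c, hne, hc, rfl, rfl, hel, rfl⟩
    have hnotin : (Sum.inl (v, ix k hk (rk x (v, !(!b)) c) p (!(!b)), !b) : Vt n k) ∉ S := fun h => hR _ h _ hu hJ
    apply hav v (ix k hk (rk x (v, !(!b)) c) p (!(!b))) b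
    rcases hone v (ix k hk (rk x (v, !(!b)) c) p (!(!b))) with h1 | h1
    · cases hbb : b with
      | false => rw [hbb] at h1; exact h1
      | true => rw [hbb] at h1 hnotin; exact (hnotin h1).elim
    · cases hbb : b with
      | false => rw [hbb] at h1 hnotin; exact (hnotin h1).elim
      | true => rw [hbb] at h1; exact h1

end Pool.Agent.J4H2.IS
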